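import Mathlib

/-!
# Equality of periods: presentations by explicit integrals

Codes of explicit integrals `∫_σ P / Q` and their products.
-/

set_option autoImplicit false
set_option synthInstance.maxSize 2000

namespace Pool.Agent.TH960.PE

open MeasureTheory

/-- A rational number `(a - b) / (c + 1)`. -/
abbrev Coef := ℕ × ℕ × ℕ

/-- The value of a coefficient. -/
noncomputable def cv (a : Coef) : ℝ := ((a.1 : ℝ) - a.2.1) / ((a.2.2 : ℝ) + 1)

/-- A monomial: a coefficient and the exponents of `x_0, x_1, ...`. -/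
abbrev Mono := Coef × List ℕ

/-- A polynomial with rational coefficients: a list of monomials. -/
abbrev Poly := List Mono

/-- A domain: a finite system of polynomial inequalities (`true`: `0 < g`, `false`: `0 ≤ g`). -/
abbrev Dom := List (Bool × Poly)

/-- The data `(n, P, Q, σ)` of an explicit integral. -/
abbrev Code := ℕ × Poly × Poly × Dom

/-- `x_0 ^ e_0 * x_1 ^ e_1 * ...` -/
def mev : (ℕ → ℝ) → List ℕ → ℝ
  | _, [] => 1
  | X, a :: e => X 0 ^ a * mev (fun i => X (i + 1)) e

/-- the value of a polynomial -/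
noncomputable def pev (X : ℕ → ℝ) (P : Poly) : ℝ := (P.map (fun m => cv m.1 * mev X m.2)).sum

/-- the point `X` satisfies the inequality `g` -/
def Sat (X : ℕ → ℝ) (g : Bool × Poly) : Prop :=
  (g.1 = true ∧ 0 < pev X g.2) ∨ (g.1 = false ∧ 0 ≤ pev X g.2)

/-- the point `X` is in the domain -/
def InDom (X : ℕ → ℝ) (D : Dom) : Prop := ∀ g ∈ D, Sat X g

open Classical in
/-- the integrand `P / Q` on the domain, `0` outside -/
noncomputable def integrand (X : ℕ → ℝ) (c : Code) : ℝ :=
  if InDom X c.2.2.2 then pev X c.2.1 / pev X c.2.2.1 else 0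

/-- a point of `ℝ ^ n`, extended by zeros -/
def ext {n : ℕ} (x : Fin n → ℝ) : ℕ → ℝ := fun i => if h : i < n then x ⟨i, h⟩ else 0

/-- the value of the integral -/
noncomputable def val (c : Code) : ℝ := ∫ x : Fin c.1 → ℝ, integrand (ext x) c

/-- a polynomial in `n` variables -/
def IsPoly (n : ℕ) (P : Poly) : Prop := ∀ m ∈ P, m.2.length ≤ n

/-- Admissible data: `P`, `Q` and the inequalities are in `n` variables, `Q` is not the zero
polynomial, and the integral converges absolutely. -/
def Adm (c : Code) : Prop :=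
  IsPoly c.1 c.2.1 ∧ IsPoly c.1 c.2.2.1 ∧ (∀ g ∈ c.2.2.2, IsPoly c.1 g.2) ∧
    (∃ x : Fin c.1 → ℝ, pev (ext x) c.2.2.1 ≠ 0) ∧
      Integrable (fun x : Fin c.1 → ℝ => integrand (ext x) c)

/-- The presentation of a complex period: explicit integrals for its real and imaginary part. -/
abbrev Pres := Code × Code

/-- admissible presentations -/
def PAdm (p : Pres) : Prop := Adm p.1 ∧ Adm p.2

/-- the period presented by `p` -/
noncomputable def pval (p : Pres) : ℂ := (val p.1 : ℂ) + (val p.2 : ℂ) * Complex.I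

/-- The algorithm `f` decides the relation `R` for pairs of periods: on each pair of admissible
presentations it halts with the correct answer. -/
def Decides (f : Pres × Pres →. Bool) (R : ℂ → ℂ → Prop) : Prop :=
  ∀ p q : Pres, PAdm p → PAdm q → ∃ b ∈ f (p, q), (b = true ↔ R (pval p) (pval q))

/-- The relation `R` between periods is decidable. -/
def AlgDecidable (R : ℂ → ℂ → Prop) : Prop :=
  ∃ f : Pres × Pres →. Bool, Partrec f ∧ Decides f R

/-! ### Products -/

/-- the product of two coefficients -/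
def cmul (a b : Coef) : Coef :=
  (a.1 * b.1 + a.2.1 * b.2.1, a.1 * b.2.1 + a.2.1 * b.1, a.2.2 * b.2.2 + a.2.2 + b.2.2)

/-- padding to length `k` -/
def pad (k : ℕ) (e : List ℕ) : List ℕ := e ++ List.replicate (k - e.length) 0

/-- the product of monomials, the variables of the second being shifted by `k` -/
def mm (k : ℕ) (a b : Mono) : Mono := (cmul a.1 b.1, pad k a.2 ++ b.2)

/-- the product of polynomials -/
def mulP (k : ℕ) : Poly → Poly → Poly
  | [], _ => []
  | a :: A, B => B.map (mm k a) ++ mulP k A B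

/-- shift of the variables -/
def shP (k : ℕ) (P : Poly) : Poly := P.map (fun m => (m.1, List.replicate k 0 ++ m.2))

/-- shift of the variables in a system -/
def shL (k : ℕ) (l : Dom) : Dom := l.map (fun g => (g.1, shP k g.2))

/-- the product of domains -/
def mulD (k : ℕ) (A B : Dom) : Dom := A ++ shL k B

/-- the product of integrals -/
def mulC (t c : Code) : Code :=
  (t.1 + c.1, mulP t.1 t.2.1 c.2.1, mulP t.1 t.2.2.1 c.2.2.1, mulD t.1 t.2.2.2 c.2.2.2)

/-- the negative of an integral -/
def negC (c : Code) : Code :=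
  (c.1, c.2.1.map (fun m => ((m.1.2.1, m.1.1, m.1.2.2), m.2)), c.2.2.1, c.2.2.2)

/-! ### Values -/

lemma mev_append (e e' : List ℕ) : ∀ X : ℕ → ℝ,
    mev X (e ++ e') = mev X e * mev (fun i => X (i + e.length)) e' := by
  induction e with
  | nil => intro X; simp [mev]
  | cons a e ih =>
    intro X
    simp only [List.cons_append, mev, ih, List.length_cons]
    rw [mul_assoc]
    have : (fun i => X (i + e.length + 1)) = (fun i => X (i + (e.length + 1))) := by
      funext i
      rw [add_assoc]
    rw [this]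

lemma mev_replicate (k : ℕ) : ∀ X : ℕ → ℝ, mev X (List.replicate k 0) = 1 := by
  induction k with
  | zero => intro X; simp [mev]
  | succ k ih => intro X; simp [List.replicate_succ, mev, ih]

lemma mev_pad (k : ℕ) (e : List ℕ) (X : ℕ → ℝ) : mev X (pad k e) = mev X e := by
  rw [pad, mev_append, mev_replicate, mul_one]

lemma length_pad (k : ℕ) (e : List ℕ) (h : e.length ≤ k) : (pad k e).length = k := by
  simp [pad]; omega

lemma mev_congr (e : List ℕ) : ∀ X Y : ℕ → ℝ, (∀ i < e.length, X i = Y i) → mev X e = mev Y e := by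
  induction e with
  | nil => intro X Y _; rfl
  | cons a e ih =>
    intro X Y h
    simp only [mev]
    rw [h 0 (by simp), ih _ _ (fun i hi => h (i + 1) (by simpa using hi))]

lemma pev_cons (X : ℕ → ℝ) (m : Mono) (P : Poly) :
    pev X (m :: P) = cv m.1 * mev X m.2 + pev X P := by
  simp [pev]

lemma pev_append (X : ℕ → ℝ) (P P' : Poly) : pev X (P ++ P') = pev X P + pev X P' := by
  simp [pev]

lemma pev_congr (n : ℕ) (P : Poly) (hP : IsPoly n P) (X Y : ℕ → ℝ) (h : ∀ i < n, X i = Y i) :
    pev X P = pev Y P := by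
  unfold pev
  congr 1
  apply List.map_congr_left
  intro m hm
  rw [mev_congr m.2 X Y (fun i hi => h i (lt_of_lt_of_le hi (hP m hm)))]

lemma cv_cmul (a b : Coef) : cv (cmul a b) = cv a * cv b := by
  unfold cv cmul
  have h1 : (a.2.2 : ℝ) + 1 ≠ 0 := by positivity
  have h2 : (b.2.2 : ℝ) + 1 ≠ 0 := by positivity
  have h3 : ((a.2.2 * b.2.2 + a.2.2 + b.2.2 : ℕ) : ℝ) + 1 =
      ((a.2.2 : ℝ) + 1) * ((b.2.2 : ℝ) + 1) := by push_cast; ring
  rw [h3]
  push_cast
  field_simp
  ring

/-- the shifted point -/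
def sh (k : ℕ) (X : ℕ → ℝ) : ℕ → ℝ := fun i => X (i + k)

lemma pev_mm (k : ℕ) (a : Mono) (ha : a.2.length ≤ k) (X : ℕ → ℝ) (B : Poly) :
    pev X (B.map (mm k a)) = cv a.1 * mev X a.2 * pev (sh k X) B := by
  induction B with
  | nil => simp [pev]
  | cons b B ih =>
    rw [List.map_cons, pev_cons, ih, pev_cons]
    simp only [mm]
    rw [mev_append, mev_pad, length_pad k a.2 ha, cv_cmul]
    rw [show (fun i => X (i + k)) = sh k X from rfl]
    ring

lemma pev_mulP (k : ℕ) (A B : Poly) (hA : IsPoly k A) (X : ℕ → ℝ) :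
    pev X (mulP k A B) = pev X A * pev (sh k X) B := by
  induction A with
  | nil => simp [mulP, pev]
  | cons a A ih =>
    rw [mulP, pev_append, pev_mm k a (hA a (by simp)), ih (fun m hm => hA m (by simp [hm])),
      pev_cons]
    ring

lemma pev_shP (k : ℕ) (P : Poly) (X : ℕ → ℝ) : pev X (shP k P) = pev (sh k X) P := by
  unfold pev shP
  rw [List.map_map]
  congr 1
  apply List.map_congr_left
  intro m _
  simp only [Function.comp, mev_append, mev_replicate, one_mul, List.length_replicate]
  rfl

lemma sat_sh (k : ℕ) (g : Bool × Poly) (X : ℕ → ℝ) :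
    Sat X (g.1, shP k g.2) ↔ Sat (sh k X) g := by
  simp only [Sat, pev_shP]

lemma inDom_mulD (k : ℕ) (A B : Dom) (X : ℕ → ℝ) :
    InDom X (mulD k A B) ↔ InDom X A ∧ InDom (sh k X) B := by
  constructor
  · intro h
    refine ⟨fun g hg => h g (List.mem_append_left _ hg), fun g hg => ?_⟩
    exact (sat_sh k g X).1 (h (g.1, shP k g.2)
      (List.mem_append_right _ (List.mem_map.2 ⟨g, hg, rfl⟩)))
  · rintro ⟨hA, hB⟩ g hg
    rcases List.mem_append.1 hg with hg | hg
    · exact hA g hg
    · obtain ⟨g', hg', rfl⟩ := List.mem_map.1 hg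
      exact (sat_sh k g' X).2 (hB g' hg')

lemma integrand_mulC (t c : Code) (ht1 : IsPoly t.1 t.2.1) (ht2 : IsPoly t.1 t.2.2.1)
    (X : ℕ → ℝ) :
    integrand X (mulC t c) = integrand X t * integrand (sh t.1 X) c := by
  classical
  unfold integrand mulC
  simp only [inDom_mulD, pev_mulP _ _ _ ht1, pev_mulP _ _ _ ht2]
  by_cases h1 : InDom X t.2.2.2 <;> by_cases h2 : InDom (sh t.1 X) c.2.2.2 <;> simp [h1, h2]
  · rw [div_mul_div_comm]

lemma integrand_congr (t : Code) (ht : Adm t) (X Y : ℕ → ℝ) (h : ∀ i < t.1, X i = Y i) :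
    integrand X t = integrand Y t := by
  classical
  have hd : InDom X t.2.2.2 ↔ InDom Y t.2.2.2 := by
    unfold InDom Sat
    constructor
    · intro hh g hg
      rw [← pev_congr t.1 g.2 (ht.2.2.1 g hg) X Y h]
      exact hh g hg
    · intro hh g hg
      rw [pev_congr t.1 g.2 (ht.2.2.1 g hg) X Y h]
      exact hh g hg
  unfold integrand
  rw [pev_congr t.1 _ ht.1 X Y h, pev_congr t.1 _ ht.2.1 X Y h]
  simp only [hd]

end Pool.Agent.TH960.PE
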