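import Mathlib
import Pool.Agent.TH960.PE.Defs

/-! # Products and negatives of explicit integrals: values -/

set_option autoImplicit false
set_option synthInstance.maxSize 2000

namespace Pool.Agent.TH960.PE

open MeasureTheory

/-- `(ℝ ^ m) × (ℝ ^ n) ≃ ℝ ^ (m + n)` -/
noncomputable def eqv (m n : ℕ) : ((Fin m → ℝ) × (Fin n → ℝ)) ≃ᵐ (Fin (m + n) → ℝ) :=
  (MeasurableEquiv.sumPiEquivProdPi (fun _ : Fin m ⊕ Fin n => ℝ)).symm.trans
    (MeasurableEquiv.piCongrLeft (fun _ : Fin (m + n) => ℝ) finSumFinEquiv)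

lemma eqv_mp (m n : ℕ) : MeasurePreserving (eqv m n) volume volume := by
  unfold eqv
  exact (volume_measurePreserving_sumPiEquivProdPi_symm (fun _ : Fin m ⊕ Fin n => ℝ)).trans
    (volume_measurePreserving_piCongrLeft (fun _ : Fin (m + n) => ℝ) finSumFinEquiv)

lemma eqv_castAdd (m n : ℕ) (p : (Fin m → ℝ) × (Fin n → ℝ)) (i : Fin m) :
    eqv m n p (Fin.castAdd n i) = p.1 i := by
  have h := Equiv.piCongrLeft_apply_apply (fun _ : Fin (m + n) => ℝ) finSumFinEquiv
    ((MeasurableEquiv.sumPiEquivProdPi (fun _ : Fin m ⊕ Fin n => ℝ)).symm p) (Sum.inl i)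
  rw [finSumFinEquiv_apply_left] at h
  exact h

lemma eqv_natAdd (m n : ℕ) (p : (Fin m → ℝ) × (Fin n → ℝ)) (i : Fin n) :
    eqv m n p (Fin.natAdd m i) = p.2 i := by
  have h := Equiv.piCongrLeft_apply_apply (fun _ : Fin (m + n) => ℝ) finSumFinEquiv
    ((MeasurableEquiv.sumPiEquivProdPi (fun _ : Fin m ⊕ Fin n => ℝ)).symm p) (Sum.inr i)
  rw [finSumFinEquiv_apply_right] at h
  exact h

lemma ext_lt (m n : ℕ) (p : (Fin m → ℝ) × (Fin n → ℝ)) (i : ℕ) (hi : i < m) :
    ext (eqv m n p) i = ext p.1 i := by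
  have h1 : i < m + n := by omega
  simp only [ext, h1, hi, dif_pos]
  exact eqv_castAdd m n p ⟨i, hi⟩

lemma ext_sh (m n : ℕ) (p : (Fin m → ℝ) × (Fin n → ℝ)) : sh m (ext (eqv m n p)) = ext p.2 := by
  funext i
  simp only [sh, ext]
  by_cases hi : i < n
  · have h1 : i + m < m + n := by omega
    simp only [h1, hi, dif_pos]
    have h2 := eqv_natAdd m n p ⟨i, hi⟩
    have e : (⟨i + m, h1⟩ : Fin (m + n)) = Fin.natAdd m ⟨i, hi⟩ := by
      ext
      simp [Nat.add_comm]
    rw [e, h2]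
  · have h1 : ¬ i + m < m + n := by omega
    simp only [h1, hi, dif_neg, not_false_iff]

lemma integrand_eqv (t c : Code) (ht : Adm t) (p : (Fin t.1 → ℝ) × (Fin c.1 → ℝ)) :
    integrand (ext (eqv t.1 c.1 p)) (mulC t c) = integrand (ext p.1) t * integrand (ext p.2) c := by
  rw [integrand_mulC t c ht.1 ht.2.1, ext_sh,
    integrand_congr t ht _ (ext p.1) (fun i hi => ext_lt _ _ p i hi)]

lemma isPoly_mulP (m n : ℕ) (A B : Poly) (hA : IsPoly m A) (hB : IsPoly n B) :
    IsPoly (m + n) (mulP m A B) := by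
  induction A with
  | nil => intro x hx; simp [mulP] at hx
  | cons a A ih =>
    intro x hx
    rw [mulP, List.mem_append] at hx
    rcases hx with hx | hx
    · obtain ⟨b, hb, rfl⟩ := List.mem_map.1 hx
      simp only [mm, List.length_append, length_pad m a.2 (hA a (by simp))]
      have := hB b hb
      omega
    · exact ih (fun y hy => hA y (by simp [hy])) x hx

lemma isPoly_mono (m n : ℕ) (h : m ≤ n) (A : Poly) (hA : IsPoly m A) : IsPoly n A :=
  fun x hx => (hA x hx).trans h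

lemma isPoly_shP (m n : ℕ) (A : Poly) (hA : IsPoly n A) : IsPoly (m + n) (shP m A) := by
  intro x hx
  obtain ⟨b, hb, rfl⟩ := List.mem_map.1 hx
  simp only [List.length_append, List.length_replicate]
  have := hA b hb
  omega

lemma isPoly_mulD (m n : ℕ) (A B : Dom) (hA : ∀ g ∈ A, IsPoly m g.2)
    (hB : ∀ g ∈ B, IsPoly n g.2) : ∀ g ∈ mulD m A B, IsPoly (m + n) g.2 := by
  intro g hg
  rcases List.mem_append.1 hg with hg | hg
  · exact isPoly_mono m _ (by omega) _ (hA g hg)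
  · obtain ⟨g', hg', rfl⟩ := List.mem_map.1 hg
    exact isPoly_shP m n _ (hB g' hg')

lemma adm_mulC (t c : Code) (ht : Adm t) (hc : Adm c) : Adm (mulC t c) := by
  refine ⟨isPoly_mulP _ _ _ _ ht.1 hc.1, isPoly_mulP _ _ _ _ ht.2.1 hc.2.1,
    isPoly_mulD _ _ _ _ ht.2.2.1 hc.2.2.1, ?_, ?_⟩
  · obtain ⟨x, hx⟩ := ht.2.2.2.1
    obtain ⟨y, hy⟩ := hc.2.2.2.1
    refine ⟨eqv t.1 c.1 (x, y), ?_⟩
    change pev (ext (eqv t.1 c.1 (x, y))) (mulP t.1 t.2.2.1 c.2.2.1) ≠ 0
    rw [pev_mulP _ _ _ ht.2.1, ext_sh,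
      pev_congr t.1 _ ht.2.1 _ (ext x) (fun i hi => ext_lt _ _ (x, y) i hi)]
    exact mul_ne_zero hx hy
  · have h1 := ht.2.2.2.2.mul_prod hc.2.2.2.2
    have h2 := (eqv_mp t.1 c.1).integrable_comp_emb (eqv t.1 c.1).measurableEmbedding
      (g := fun z : Fin (t.1 + c.1) → ℝ => integrand (ext z) (mulC t c))
    refine h2.1 ?_
    refine h1.congr (Filter.Eventually.of_forall fun p => ?_)
    exact (integrand_eqv t c ht p).symm

lemma val_mulC (t c : Code) (ht : Adm t) : val (mulC t c) = val t * val c := by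
  have h1 := (eqv_mp t.1 c.1).integral_comp (eqv t.1 c.1).measurableEmbedding
    (fun z : Fin (t.1 + c.1) → ℝ => integrand (ext z) (mulC t c))
  change ∫ z : Fin (t.1 + c.1) → ℝ, integrand (ext z) (mulC t c) = _
  rw [← h1]
  simp only [integrand_eqv t c ht]
  exact integral_prod_mul (fun x : Fin t.1 → ℝ => integrand (ext x) t)
    (fun y : Fin c.1 → ℝ => integrand (ext y) c)

lemma pev_neg (X : ℕ → ℝ) (P : Poly) :
    pev X (P.map (fun m => ((m.1.2.1, m.1.1, m.1.2.2), m.2))) = - pev X P := by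
  induction P with
  | nil => simp [pev]
  | cons m P ih => rw [List.map_cons, pev_cons, pev_cons, ih]; simp only [cv]; ring

lemma integrand_neg (X : ℕ → ℝ) (c : Code) : integrand X (negC c) = - integrand X c := by
  classical
  unfold integrand negC
  simp only [pev_neg]
  split_ifs
  · rw [neg_div]
  · simp

lemma adm_negC (c : Code) (hc : Adm c) : Adm (negC c) := by
  refine ⟨?_, hc.2.1, hc.2.2.1, hc.2.2.2.1, ?_⟩
  · intro x hx
    obtain ⟨b, hb, rfl⟩ := List.mem_map.1 hx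
    exact hc.1 b hb
  · refine hc.2.2.2.2.neg.congr (Filter.Eventually.of_forall fun x => ?_)
    exact (integrand_neg (ext x) c).symm

lemma val_negC (c : Code) : val (negC c) = - val c := by
  change ∫ x : Fin c.1 → ℝ, integrand (ext x) (negC c) = _
  simp only [integrand_neg]
  rw [integral_neg]
  rfl

end Pool.Agent.TH960.PE
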