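import Mathlib
import Pool.Agent.TH960.PE.Fub

/-! # Products and negatives of explicit integrals are computable -/

set_option autoImplicit false
set_option synthInstance.maxSize 2000

namespace Pool.Agent.TH960.PE

lemma prim_cmul (a : Coef) : Primrec (fun b : Coef => cmul a b) := by
  have h1 : Primrec (fun b : Coef => b.1) := Primrec.fst
  have h2 : Primrec (fun b : Coef => b.2.1) := Primrec.fst.comp Primrec.snd
  have h3 : Primrec (fun b : Coef => b.2.2) := Primrec.snd.comp Primrec.snd
  have m : ∀ (k : ℕ) (f : Coef → ℕ), Primrec f → Primrec (fun b => k * f b) := fun k f hf =>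
    Primrec.nat_mul.comp (Primrec.const k) hf
  exact Primrec.pair (Primrec.nat_add.comp (m a.1 _ h1) (m a.2.1 _ h2))
    (Primrec.pair (Primrec.nat_add.comp (m a.1 _ h2) (m a.2.1 _ h1))
      (Primrec.nat_add.comp (Primrec.nat_add.comp (m a.2.2 _ h3) (Primrec.const a.2.2)) h3))

lemma prim_mm (k : ℕ) (a : Mono) : Primrec (fun b : Mono => mm k a b) := by
  unfold mm
  exact Primrec.pair ((prim_cmul a.1).comp Primrec.fst)
    (Primrec.list_append.comp (Primrec.const (pad k a.2)) Primrec.snd)

lemma prim_mulP (k : ℕ) (A : Poly) : Primrec (fun B : Poly => mulP k A B) := by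
  induction A with
  | nil =>
    simp only [mulP]
    exact Primrec.const []
  | cons a A ih =>
    simp only [mulP]
    exact Primrec.list_append.comp
      (Primrec.list_map Primrec.id ((prim_mm k a).comp₂ Primrec₂.right)) ih

lemma prim_shP (k : ℕ) : Primrec (shP k) := by
  unfold shP
  refine Primrec.list_map Primrec.id (Primrec.comp₂ (f := fun m : Mono =>
    ((m.1, List.replicate k 0 ++ m.2) : Mono)) ?_ Primrec₂.right)
  exact Primrec.pair Primrec.fst
    (Primrec.list_append.comp (Primrec.const (List.replicate k 0)) Primrec.snd)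

lemma prim_shL (k : ℕ) : Primrec (shL k) := by
  unfold shL
  refine Primrec.list_map Primrec.id (Primrec.comp₂ (f := fun g : Bool × Poly =>
    ((g.1, shP k g.2) : Bool × Poly)) ?_ Primrec₂.right)
  exact Primrec.pair Primrec.fst ((prim_shP k).comp Primrec.snd)

lemma prim_mulD (k : ℕ) (A : Dom) : Primrec (fun B : Dom => mulD k A B) :=
  Primrec.list_append.comp (Primrec.const A) (prim_shL k)

lemma prim_mulC (t : Code) : Primrec (mulC t) := by
  unfold mulC
  exact Primrec.pair (Primrec.nat_add.comp (Primrec.const t.1) Primrec.fst)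
    (Primrec.pair ((prim_mulP t.1 t.2.1).comp (Primrec.fst.comp Primrec.snd))
      (Primrec.pair ((prim_mulP t.1 t.2.2.1).comp
          (Primrec.fst.comp (Primrec.snd.comp Primrec.snd)))
        ((prim_mulD t.1 t.2.2.2).comp (Primrec.snd.comp (Primrec.snd.comp Primrec.snd)))))

lemma prim_negC : Primrec negC := by
  unfold negC
  refine Primrec.pair Primrec.fst (Primrec.pair ?_ (Primrec.snd.comp Primrec.snd))
  refine Primrec.list_map (Primrec.fst.comp Primrec.snd) (Primrec.comp₂ (f := fun m : Mono =>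
    (((m.1.2.1, m.1.1, m.1.2.2), m.2) : Mono)) ?_ Primrec₂.right)
  exact Primrec.pair (Primrec.pair (Primrec.fst.comp (Primrec.snd.comp Primrec.fst))
    (Primrec.pair (Primrec.fst.comp Primrec.fst)
      (Primrec.snd.comp (Primrec.snd.comp Primrec.fst)))) Primrec.snd

/-- a computable transformation of presentations which multiplies periods by `τ` -/
structure Mult (τ : ℂ) where
  /-- the transformation -/
  T : Pres → Pres
  comp : Computable T
  adm : ∀ p, PAdm p → PAdm (T p)
  val : ∀ p, PAdm p → pval (T p) = τ * pval p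

/-- multiplication by a real period -/
def multReal (t : Code) (ht : Adm t) : Mult (val t : ℂ) where
  T p := (mulC t p.1, mulC t p.2)
  comp := (Primrec.pair ((prim_mulC t).comp Primrec.fst) ((prim_mulC t).comp Primrec.snd)).to_comp
  adm p hp := ⟨adm_mulC t _ ht hp.1, adm_mulC t _ ht hp.2⟩
  val p hp := by
    simp only [pval, val_mulC t _ ht]
    push_cast
    ring

/-- multiplication by `i` -/
def multI : Mult Complex.I where
  T p := (negC p.2, p.1)
  comp := (Primrec.pair (prim_negC.comp Primrec.snd) Primrec.fst).to_comp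
  adm p hp := ⟨adm_negC _ hp.2, hp.1⟩
  val p hp := by
    simp only [pval, val_negC]
    push_cast
    have := Complex.I_mul_I
    linear_combination (-(PE.val p.2 : ℂ)) * this

/-- the identity -/
def multOne : Mult 1 where
  T := id
  comp := Computable.id
  adm _ hp := hp
  val _ _ := (one_mul _).symm

/-- composition -/
def Mult.mul {a b : ℂ} (A : Mult a) (B : Mult b) : Mult (a * b) where
  T p := A.T (B.T p)
  comp := A.comp.comp B.comp
  adm p hp := A.adm _ (B.adm _ hp)
  val p hp := by rw [A.val _ (B.adm _ hp), B.val _ hp, mul_assoc]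

lemma dec_mult {τ : ℂ} (A : Mult τ) (S : Set ℂ) (h : AlgDecidable (fun a b => a - b ∈ S)) :
    AlgDecidable (fun a b => τ * (a - b) ∈ S) := by
  obtain ⟨f, hf, hd⟩ := h
  refine ⟨fun x => f (A.T x.1, A.T x.2), ?_, ?_⟩
  · exact hf.comp ((A.comp.comp Computable.fst).pair (A.comp.comp Computable.snd))
  · intro p q hp hq
    obtain ⟨b, hb, h⟩ := hd (A.T p) (A.T q) (A.adm p hp) (A.adm q hq)
    refine ⟨b, hb, ?_⟩
    rw [h, A.val p hp, A.val q hq]
    simp only [mul_sub]

lemma dec_and (R R' : ℂ → ℂ → Prop) (h : AlgDecidable R) (h' : AlgDecidable R') :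
    AlgDecidable (fun a b => R a b ∧ R' a b) := by
  obtain ⟨f, hf, hd⟩ := h
  obtain ⟨f', hf', hd'⟩ := h'
  refine ⟨fun x => (f x).bind (fun b => (f' x).map (fun b' => b && b')), ?_, ?_⟩
  · refine hf.bind ?_
    refine Partrec.map (hf'.comp Computable.fst) ?_
    exact (Primrec.and.comp₂ (Primrec.snd.comp₂ Primrec₂.left) Primrec₂.right).to_comp
  · intro p q hp hq
    obtain ⟨b, hb, h⟩ := hd p q hp hq
    obtain ⟨b', hb', h'⟩ := hd' p q hp hq
    refine ⟨b && b', ?_, ?_⟩
    · exact Part.mem_bind_iff.2 ⟨b, hb, (Part.mem_map_iff _).2 ⟨b', hb', rfl⟩⟩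
    · rw [Bool.and_eq_true, h, h']

lemma dec_congr (R R' : ℂ → ℂ → Prop) (h : AlgDecidable R) (hR : ∀ a b, R a b ↔ R' a b) :
    AlgDecidable R' := by
  obtain ⟨f, hf, hd⟩ := h
  refine ⟨f, hf, fun p q hp hq => ?_⟩
  obtain ⟨b, hb, h⟩ := hd p q hp hq
  exact ⟨b, hb, h.trans (hR _ _)⟩

/-- **Main criterion.** -/
theorem main (S : Set ℂ) (L : List ℂ) (hL : ∀ τ ∈ L, Nonempty (Mult τ)) (h0 : (0 : ℂ) ∈ S)
    (hS : ∀ z ∈ S, (∀ τ ∈ L, τ * z ∈ S) → z = 0)
    (h : AlgDecidable (fun a b => a - b ∈ S)) : AlgDecidable (fun a b => a = b) := by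
  have key : ∀ L : List ℂ, (∀ τ ∈ L, Nonempty (Mult τ)) →
      AlgDecidable (fun a b => a - b ∈ S ∧ ∀ τ ∈ L, τ * (a - b) ∈ S) := by
    intro L
    induction L with
    | nil =>
      intro _
      refine dec_congr _ _ h (fun a b => ?_)
      simp
    | cons τ L ih =>
      intro hL
      obtain ⟨A⟩ := hL τ (by simp)
      refine dec_congr _ _ (dec_and _ _ (ih (fun σ hσ => hL σ (by simp [hσ]))) (dec_mult A S h))
        (fun a b => ?_)
      simp only [List.mem_cons, forall_eq_or_imp]
      tauto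
  refine dec_congr _ _ (key L hL) (fun a b => ⟨fun ⟨h1, h2⟩ => ?_, fun hab => ?_⟩)
  · exact sub_eq_zero.1 (hS _ h1 h2)
  · subst hab
    rw [sub_self]
    exact ⟨h0, fun τ _ => by rw [mul_zero]; exact h0⟩

end Pool.Agent.TH960.PE
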