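import Mathlib
import Pool.Agent.TH960.PE.Comp

/-! # Equality of periods and congruence of periods -/

set_option autoImplicit false
set_option synthInstance.maxSize 2000

namespace Pool.Agent.TH960.PE

/-- The real numbers which are values of explicit integrals, and `i`. -/
def gens : Set ℂ := insert Complex.I {z | ∃ t : Code, Adm t ∧ z = (val t : ℂ)}

lemma mult_of_mem (τ : ℂ) (h : τ ∈ Submonoid.closure gens) : Nonempty (Mult τ) := by
  induction h using Submonoid.closure_induction with
  | mem x hx =>
    rcases hx with rfl | ⟨t, ht, rfl⟩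
    · exact ⟨multI⟩
    · exact ⟨multReal t ht⟩
  | one => exact ⟨multOne⟩
  | mul x y _ _ hx hy =>
    obtain ⟨A⟩ := hx
    obtain ⟨B⟩ := hy
    exact ⟨A.mul B⟩

theorem criterion (S : Set ℂ) (L : List ℂ) (hL : ∀ τ ∈ L, τ ∈ Submonoid.closure gens)
    (h0 : (0 : ℂ) ∈ S) (hS : ∀ z ∈ S, (∀ τ ∈ L, τ * z ∈ S) → z = 0)
    (h : AlgDecidable (fun a b => a - b ∈ S)) : AlgDecidable (fun a b => a = b) :=
  main S L (fun τ hτ => mult_of_mem τ (hL τ hτ)) h0 hS h

theorem subfield (K : Subfield ℂ) (hK : ∃ p : Pres, PAdm p ∧ pval p ∉ K)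
    (h : AlgDecidable (fun a b => a - b ∈ K)) : AlgDecidable (fun a b => a = b) := by
  obtain ⟨p, hp, hpK⟩ := hK
  have : ∃ τ ∈ gens, τ ∉ K := by
    by_contra hcon
    push Not at hcon
    apply hpK
    unfold pval
    exact K.add_mem (hcon _ (Or.inr ⟨p.1, hp.1, rfl⟩))
      (K.mul_mem (hcon _ (Or.inr ⟨p.2, hp.2, rfl⟩)) (hcon _ (Or.inl rfl)))
  obtain ⟨τ, hτ, hτK⟩ := this
  refine criterion (K : Set ℂ) [τ] ?_ K.zero_mem ?_ h
  · intro σ hσ
    rw [List.mem_singleton.1 hσ]
    exact Submonoid.subset_closure hτ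
  · intro z hz hz'
    by_contra hne
    apply hτK
    have h1 : τ * z ∈ K := hz' τ (by simp)
    have h2 : τ = τ * z * z⁻¹ := by field_simp
    rw [h2]
    exact K.mul_mem h1 (K.inv_mem hz)

theorem space (k : Subfield ℂ) (V : Submodule k ℂ) [FiniteDimensional k V] (t : Code)
    (ht : Adm t) (htr : Transcendental k (val t : ℂ))
    (h : AlgDecidable (fun a b => a - b ∈ V)) : AlgDecidable (fun a b => a = b) := by
  set τ : ℂ := (val t : ℂ) with hτ
  set d := Module.finrank k V with hd
  refine criterion (V : Set ℂ) ((List.range (d + 1)).map (fun j => τ ^ j)) ?_ V.zero_mem ?_ h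
  · intro σ hσ
    obtain ⟨j, -, rfl⟩ := List.mem_map.1 hσ
    exact (Submonoid.closure gens).pow_mem (Submonoid.subset_closure (Or.inr ⟨t, ht, rfl⟩)) j
  · intro z _ hz
    by_contra hne
    have hmem : ∀ j : Fin (d + 1), τ ^ (j : ℕ) * z ∈ V := fun j =>
      hz _ (List.mem_map.2 ⟨j, List.mem_range.2 j.2, rfl⟩)
    have hli : LinearIndependent k (fun j : Fin (d + 1) => (⟨τ ^ (j : ℕ) * z, hmem j⟩ : V)) := by
      have h2 : ∀ g : Fin (d + 1) → k, ∑ j : Fin (d + 1), g j • τ ^ (j : ℕ) = 0 →
          ∀ i, g i = 0 := by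
        intro g hg i
        have h1 := transcendental_iff.1 htr
          (∑ j : Fin (d + 1), Polynomial.monomial (j : ℕ) (g j)) (by
            rw [map_sum, ← hg]
            apply Finset.sum_congr rfl
            intro j _
            rw [Polynomial.aeval_monomial, Algebra.smul_def])
        have h3 := congrArg (fun q => Polynomial.coeff q (i : ℕ)) h1
        simp only [Polynomial.finsetSum_coeff, Polynomial.coeff_monomial,
          Polynomial.coeff_zero] at h3
        rw [Finset.sum_eq_single i] at h3
        · simpa using h3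
        · intro j _ hj
          rw [if_neg (fun hji => hj (Fin.ext hji))]
        · intro hi
          exact absurd (Finset.mem_univ i) hi
      rw [Fintype.linearIndependent_iff]
      intro g hg
      apply h2 g
      have h3 := congrArg (Submodule.subtype V) hg
      rw [map_sum, map_zero] at h3
      simp only [map_smul, Submodule.subtype_apply] at h3
      have h4 : (∑ j : Fin (d + 1), g j • τ ^ (j : ℕ)) * z = 0 := by
        rw [Finset.sum_mul, ← h3]
        apply Finset.sum_congr rfl
        intro j _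
        rw [smul_mul_assoc]
      exact (mul_eq_zero.1 h4).resolve_right hne
    have := hli.fintype_card_le_finrank
    rw [Fintype.card_fin] at this
    omega

end Pool.Agent.TH960.PE
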