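import Mathlib
import Pool.Agent.TH960.PE.Main

/-! # `π` is the value of an explicit integral -/

set_option autoImplicit false
set_option synthInstance.maxSize 2000

namespace Pool.Agent.TH960.PE

open MeasureTheory

/-- the integral of `1` over the domain `0 < 1 - x_0 ^ 2 - x_1 ^ 2` -/
def piCode : Code :=
  (2, [((1, 0, 0), [])], [((1, 0, 0), [])],
    [(true, [((1, 0, 0), []), ((0, 1, 0), [2]), ((0, 1, 0), [0, 2])])])

/-- the open unit disc -/
def disc : Set (Fin 2 → ℝ) := {x | x 0 ^ 2 + x 1 ^ 2 < 1}

lemma disc_meas : MeasurableSet disc := by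
  apply measurableSet_lt
  · fun_prop
  · fun_prop

lemma integrand_pi (x : Fin 2 → ℝ) :
    integrand (ext x) piCode = disc.indicator (fun _ => (1 : ℝ)) x := by
  classical
  have h0 : ext x 0 = x 0 := by simp [ext]
  have h1 : ext x 1 = x 1 := by simp [ext]
  have hd : InDom (ext x) piCode.2.2.2 ↔ x ∈ disc := by
    simp only [InDom, piCode, Sat, pev, mev, cv, disc, List.mem_singleton, forall_eq, List.map_cons, List.map_nil, List.sum_cons, List.sum_nil, Set.mem_ofPred_eq,
      true_and, zero_add, h0, h1]
    norm_num
    constructor <;> intro h <;> linarith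
  unfold integrand
  rw [Set.indicator_apply]
  by_cases h : x ∈ disc
  · rw [if_pos (hd.2 h), if_pos h]
    simp [piCode, pev, mev, cv]
  · rw [if_neg (fun h' => h (hd.1 h')), if_neg h]

lemma vol_disc : volume disc = ENNReal.ofReal Real.pi := by
  have h1 := Complex.volume_preserving_equiv_pi.measure_preimage
    (s := disc) disc_meas.nullMeasurableSet
  rw [← h1]
  have h2 : Complex.measurableEquivPi ⁻¹' disc = Metric.ball (0 : ℂ) 1 := by
    ext z
    simp only [Set.mem_preimage, disc, Set.mem_ofPred_eq, Metric.mem_ball, dist_zero_right]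
    have e0 : Complex.measurableEquivPi z 0 = z.re := rfl
    have e1 : Complex.measurableEquivPi z 1 = z.im := rfl
    rw [e0, e1, ← sq_lt_one_iff₀ (norm_nonneg z), ← Complex.normSq_eq_norm_sq,
      Complex.normSq_apply]
    constructor <;> intro h <;> nlinarith
  rw [h2, Complex.volume_ball, ENNReal.ofReal_one, one_pow, one_mul, ENNReal.ofReal]
  congr 1
  apply NNReal.eq
  rw [Real.coe_toNNReal _ Real.pi_pos.le]
  rfl

theorem pi_code : Adm piCode ∧ val piCode = Real.pi := by
  have hfin : volume disc ≠ ⊤ := by rw [vol_disc]; exact ENNReal.ofReal_ne_top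
  refine ⟨⟨?_, ?_, ?_, ?_, ?_⟩, ?_⟩
  · intro m hm
    simp only [piCode, List.mem_singleton] at hm
    subst hm
    simp
  · intro m hm
    simp only [piCode, List.mem_singleton] at hm
    subst hm
    simp
  · intro g hg m hm
    simp only [piCode, List.mem_singleton] at hg
    subst hg
    simp only [List.mem_cons, List.not_mem_nil, or_false] at hm
    rcases hm with rfl | rfl | rfl <;> simp [piCode]
  · exact ⟨0, by simp [piCode, pev, mev, cv]⟩
  · change Integrable (fun x : Fin 2 → ℝ => integrand (ext x) piCode)
    simp only [integrand_pi]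
    exact (integrable_indicator_iff disc_meas).2 (integrableOn_const hfin)
  · change ∫ x : Fin 2 → ℝ, integrand (ext x) piCode = _
    simp only [integrand_pi]
    rw [integral_indicator disc_meas, setIntegral_const]
    simp [Measure.real, vol_disc, Real.pi_pos.le]

end Pool.Agent.TH960.PE
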