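import Mathlib
import Pool.Agent.TH960.PE.PiCode

/-! # Rational differences -/

set_option autoImplicit false
set_option synthInstance.maxSize 2000

namespace Pool.Agent.TH960.PE

open MeasureTheory

/-- the integral of `0` -/
def zeroCode : Code := (0, [], [((1, 0, 0), [])], [])

lemma integrand_zero (X : ℕ → ℝ) : integrand X zeroCode = 0 := by
  classical
  unfold integrand
  simp [zeroCode, pev]

lemma zero_code : Adm zeroCode ∧ val zeroCode = 0 := by
  refine ⟨⟨?_, ?_, ?_, ?_, ?_⟩, ?_⟩
  · intro m hm; simp [zeroCode] at hm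
  · intro m hm
    simp only [zeroCode, List.mem_singleton] at hm
    subst hm
    simp
  · intro g hg; simp [zeroCode] at hg
  · exact ⟨0, by simp [zeroCode, pev, mev, cv]⟩
  · simp only [integrand_zero]
    exact integrable_zero _ _ _
  · unfold val
    simp only [integrand_zero]
    exact integral_zero _ _

lemma pi_pres : PAdm (piCode, zeroCode) ∧ pval (piCode, zeroCode) = (Real.pi : ℂ) := by
  refine ⟨⟨pi_code.1, zero_code.1⟩, ?_⟩
  simp [pval, pi_code.2, zero_code.2]

theorem subfield_pi (K : Subfield ℂ) (hK : (Real.pi : ℂ) ∉ K)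
    (h : AlgDecidable (fun a b => a - b ∈ K)) : AlgDecidable (fun a b => a = b) :=
  subfield K ⟨(piCode, zeroCode), pi_pres.1, by rw [pi_pres.2]; exact hK⟩ h

theorem rational (h : AlgDecidable (fun a b => ∃ q : ℚ, a - b = q)) :
    AlgDecidable (fun a b => a = b) := by
  refine subfield_pi (algebraMap ℚ ℂ).fieldRange ?_ (dec_congr _ _ h (fun a b => ?_))
  · rintro ⟨q, hq⟩
    have h1 : ((q : ℝ) : ℂ) = (Real.pi : ℂ) := by rw [← hq]; simp
    exact irrational_pi ⟨q, by exact_mod_cast h1⟩
  · constructor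
    · rintro ⟨q, hq⟩
      exact ⟨q, by rw [hq]; simp⟩
    · rintro ⟨q, hq⟩
      exact ⟨q, by rw [← hq]; simp⟩

end Pool.Agent.TH960.PE
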