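import Mathlib
import Pool.Agent.TH960.PE.Rat
import Pool.Agent.H340R2.LW

/-! # Finite-dimensional spaces over the algebraic numbers -/

set_option autoImplicit false
set_option synthInstance.maxSize 2000

namespace Pool.Agent.TH960.PE

lemma trans_pi : Transcendental (algebraicClosure ℚ ℂ) (Real.pi : ℂ) := by
  intro h
  have : Algebra.IsAlgebraic ℚ (algebraicClosure ℚ ℂ) := algebraicClosure.isAlgebraic ℚ ℂ
  exact Pool.Agent.H340R2.LW.transcendental_pi_complex (h.restrictScalars ℚ)

theorem algebraic_space (V : Submodule (algebraicClosure ℚ ℂ) ℂ)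
    [FiniteDimensional (algebraicClosure ℚ ℂ) V]
    (h : AlgDecidable (fun a b => a - b ∈ V)) : AlgDecidable (fun a b => a = b) := by
  have htr : Transcendental (algebraicClosure ℚ ℂ) (val piCode : ℂ) := by
    rw [pi_code.2]; exact trans_pi
  exact space (algebraicClosure ℚ ℂ).toSubfield V piCode pi_code.1 htr h

end Pool.Agent.TH960.PE
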